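import Mathlib

/-! Operators `g ↦ (z ↦ κ z g)` with square integrable `κ` with values in the dual are compact. -/

set_option autoImplicit false

open MeasureTheory Set Filter Topology Metric
open scoped ENNReal

namespace Pool.Agent.Helper7.KF

section
variable {α : Type*} [MeasurableSpace α] {μ : Measure α} {H : Type*} [NormedAddCommGroup H]
  [NormedSpace ℂ H]

/-- the operator with kernel `κ` -/
noncomputable def kerOp (κ : Lp (H →L[ℂ] ℂ) 2 μ) : H →L[ℂ] Lp ℂ 2 μ :=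
  (ContinuousLinearMap.compLpL₂ 2 μ (ContinuousLinearMap.apply ℂ ℂ :
    H →L[ℂ] (H →L[ℂ] ℂ) →L[ℂ] ℂ)).flip κ

theorem kerOp_coe (κ : Lp (H →L[ℂ] ℂ) 2 μ) (g : H) :
    (kerOp κ g : α → ℂ) =ᵐ[μ] fun z => (κ z) g := by
  have h1 : kerOp κ g = ((ContinuousLinearMap.apply ℂ ℂ g : (H →L[ℂ] ℂ) →L[ℂ] ℂ)).compLp κ := rfl
  rw [h1]
  exact ContinuousLinearMap.coeFn_compLp' _ _

theorem kerOp_compact (κ : Lp (H →L[ℂ] ℂ) 2 μ) : IsCompactOperator (kerOp κ) := by
  induction κ using Lp.induction (by norm_num : (2 : ℝ≥0∞) ≠ ∞) with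
  | indicatorConst c hs hμs =>
    rename_i s
    have h1 : (kerOp (Lp.simpleFunc.indicatorConst 2 hs hμs.ne c : Lp.simpleFunc (H →L[ℂ] ℂ) 2 μ) :
        H → Lp ℂ 2 μ) =
        (ContinuousLinearMap.toSpanSingleton ℂ (indicatorConstLp 2 hs hμs.ne (1 : ℂ))) ∘ c := by
      funext g
      apply Lp.ext
      have e1 := kerOp_coe (H := H) (μ := μ) ((Lp.simpleFunc.indicatorConst 2 hs hμs.ne c :
        Lp.simpleFunc (H →L[ℂ] ℂ) 2 μ) : Lp (H →L[ℂ] ℂ) 2 μ) g
      have e2 := indicatorConstLp_coeFn (p := 2) (hs := hs) (hμs := hμs.ne) (c := c)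
      have e3 := indicatorConstLp_coeFn (p := 2) (hs := hs) (hμs := hμs.ne) (c := (1 : ℂ))
      have e4 := Lp.coeFn_smul (c g) (indicatorConstLp 2 hs hμs.ne (1 : ℂ))
      rw [Lp.simpleFunc.coe_indicatorConst] at e1 ⊢
      filter_upwards [e1, e2, e3, e4] with x h1 h2 h3 h4
      rw [h1, h2]
      simp only [Function.comp, ContinuousLinearMap.toSpanSingleton_apply]
      rw [h4, Pi.smul_apply, h3]
      by_cases hxs : x ∈ s
      · simp [hxs]
      · simp [hxs]
    rw [h1]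
    exact (isCompactOperator_of_locallyCompactSpace_dom c).clm_comp _
  | add hf hg _ h1 h2 =>
    unfold kerOp at h1 h2 ⊢
    rw [map_add]
    exact h1.add h2
  | isClosed =>
    exact isClosed_setOfPred_isCompactOperator.preimage
      (ContinuousLinearMap.continuous ((ContinuousLinearMap.compLpL₂ 2 μ
        (ContinuousLinearMap.apply ℂ ℂ : H →L[ℂ] (H →L[ℂ] ℂ) →L[ℂ] ℂ)).flip))

end

end Pool.Agent.Helper7.KF
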