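import Mathlib

/-! The analytic Fredholm theorem on a disc, in a Hilbert space, with one finite-dimensional
projection for the whole closed disc. -/

set_option autoImplicit false
set_option linter.unusedSectionVars false

open Set Filter Topology Metric

namespace Pool.Agent.Helper7.KF

section
variable {H : Type*} [NormedAddCommGroup H] [InnerProductSpace ℂ H] [CompleteSpace H]

/-- approximation of a compact family of compact operators by one finite-dimensional projection -/
theorem exists_fd {T : ℝ} {K : ℂ → H →L[ℂ] H} (hK : ContinuousOn K (closedBall 0 T))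
    (hc : ∀ z ∈ closedBall (0 : ℂ) T, IsCompactOperator (K z)) :
    ∃ V : Submodule ℂ H, FiniteDimensional ℂ V ∧ ∀ z ∈ closedBall (0 : ℂ) T, ∀ x : H, ‖x‖ ≤ 1 →
      ∃ y ∈ V, ‖K z x - y‖ ≤ 1 / 2 := by
  classical
  -- finitely many points of the disc
  have hcomp : IsCompact (closedBall (0 : ℂ) T) := isCompact_closedBall _ _
  have h1 : ∀ z ∈ closedBall (0 : ℂ) T, ∃ U ∈ 𝓝[closedBall (0 : ℂ) T] z, ∀ w ∈ U,
      ‖K w - K z‖ ≤ 1 / 4 := by
    intro z hz
    have h2 : ∀ᶠ w in 𝓝[closedBall (0 : ℂ) T] z, ‖K w - K z‖ < 1 / 4 := by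
      have h3 := (hK z hz)
      rw [ContinuousWithinAt, tendsto_iff_norm_sub_tendsto_zero] at h3
      exact h3.eventually_lt_const (by norm_num)
    exact ⟨_, h2, fun w hw => le_of_lt hw⟩
  choose! U hU hUK using h1
  obtain ⟨t, ht, hcov⟩ := hcomp.elim_nhdsWithin_subcover U hU
  -- finite nets of the images of the unit ball
  have h4 : ∀ z ∈ closedBall (0 : ℂ) T, ∃ F : Set H, F.Finite ∧ ∀ x : H, ‖x‖ ≤ 1 →
      ∃ y ∈ F, ‖K z x - y‖ ≤ 1 / 4 := by
    intro z hz
    have h5 : TotallyBounded (K z '' closedBall (0 : H) 1) := by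
      have := (hc z hz).isCompact_closure_image_closedBall 1
      exact this.totallyBounded.subset subset_closure
    obtain ⟨F, hF, hFc⟩ := Metric.totallyBounded_iff.1 h5 (1 / 4) (by norm_num)
    refine ⟨F, hF, fun x hx => ?_⟩
    have h6 := hFc (mem_image_of_mem (K z) (mem_closedBall_zero_iff.2 hx))
    rw [mem_iUnion₂] at h6
    obtain ⟨y, hy, hy'⟩ := h6
    exact ⟨y, hy, by rw [mem_ball, dist_eq_norm] at hy'; exact hy'.le⟩
  choose! F hF hFK using h4
  have hfin : (⋃ z ∈ t, F z).Finite := t.finite_toSet.biUnion fun z hz => hF z (ht z hz)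
  refine ⟨Submodule.span ℂ (⋃ z ∈ t, F z), FiniteDimensional.span_of_finite ℂ hfin, ?_⟩
  intro z hz x hx
  have h7 := hcov hz
  rw [mem_iUnion₂] at h7
  obtain ⟨w, hw, hzw⟩ := h7
  obtain ⟨y, hy, hy'⟩ := hFK w (ht w hw) x hx
  refine ⟨y, Submodule.subset_span (mem_biUnion hw hy), ?_⟩
  have h8 : ‖(K z - K w) x‖ ≤ 1 / 4 * 1 :=
    (K z - K w).le_of_opNorm_le_of_le (hUK w (ht w hw) z hzw) hx
  rw [sub_apply] at h8
  calc ‖K z x - y‖ = ‖(K z x - K w x) + (K w x - y)‖ := by congr 1; abel
    _ ≤ ‖K z x - K w x‖ + ‖K w x - y‖ := norm_add_le _ _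
    _ ≤ 1 / 4 * 1 + 1 / 4 := add_le_add h8 hy'
    _ = 1 / 2 := by norm_num

theorem fredholm_disc {T T' : ℝ} (hT : 0 < T) (hTT : T < T') {K : ℂ → H →L[ℂ] H}
    (hK : DifferentiableOn ℂ K (ball 0 T'))
    (hc : ∀ z ∈ ball (0 : ℂ) T', IsCompactOperator (K z)) (h0 : IsUnit (1 + K 0)) :
    ∃ (d : ℂ → ℂ) (N : ℂ → H →L[ℂ] H), DifferentiableOn ℂ d (ball 0 T) ∧ d 0 ≠ 0 ∧
      DifferentiableOn ℂ N (ball 0 T) ∧ ∀ z ∈ ball (0 : ℂ) T, (1 + K z) * N z = d z • 1 := by
  classical
  have hsub : closedBall (0 : ℂ) T ⊆ ball 0 T' := closedBall_subset_ball hTT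
  obtain ⟨V, hV, hVK⟩ := exists_fd (hK.continuousOn.mono hsub) fun z hz => hc z (hsub hz)
  have hcV : CompleteSpace V := FiniteDimensional.complete ℂ V
  obtain ⟨P, hP⟩ : ∃ P : H →L[ℂ] H, P = V.starProjection := ⟨_, rfl⟩
  have hPn : ∀ x y : H, y ∈ V → ‖x - P x‖ ≤ ‖x - y‖ := by
    intro x y hy
    rw [hP, Submodule.starProjection_minimal]
    exact ciInf_le ⟨0, by rintro _ ⟨a, rfl⟩; positivity⟩ (⟨y, hy⟩ : V)
  have hsmall : ∀ z ∈ ball (0 : ℂ) T, ‖(1 - P) * K z‖ ≤ 1 / 2 := by
    intro z hz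
    refine ContinuousLinearMap.opNorm_le_of_unit_norm (by norm_num) ?_
    intro x hx
    obtain ⟨y, hy, hy'⟩ := hVK z (ball_subset_closedBall hz) x hx.le
    have : ((1 - P) * K z) x = K z x - P (K z x) := by
      simp [ContinuousLinearMap.mul_apply]
    rw [this]
    exact (hPn _ _ hy).trans hy'
  obtain ⟨A, hA⟩ : ∃ A : ℂ → H →L[ℂ] H, A = fun z => 1 + (1 - P) * K z := ⟨_, rfl⟩
  have hAu : ∀ z ∈ ball (0 : ℂ) T, IsUnit (A z) := by
    intro z hz
    have h1 : ‖-((1 - P) * K z)‖ < 1 := by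
      rw [norm_neg]; exact (hsmall z hz).trans_lt (by norm_num)
    have h2 := (Units.oneSub (-((1 - P) * K z)) h1).isUnit
    rw [Units.val_oneSub, sub_neg_eq_add] at h2
    rw [hA]
    exact h2
  have hKd : DifferentiableOn ℂ K (ball 0 T) := hK.mono (ball_subset_closedBall.trans hsub)
  have hAd : DifferentiableOn ℂ A (ball 0 T) := by
    rw [hA]
    exact (hKd.const_mul (1 - P)).const_add 1
  obtain ⟨B, hB⟩ : ∃ B : ℂ → H →L[ℂ] H, B = fun z => Ring.inverse (A z) := ⟨_, rfl⟩
  have hBd : DifferentiableOn ℂ B (ball 0 T) := by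
    intro z hz
    rw [hB]
    exact (differentiableAt_inverse (hAu z hz)).comp_differentiableWithinAt z (hAd z hz)
  have hAB : ∀ z ∈ ball (0 : ℂ) T, A z * B z = 1 := fun z hz => by
    rw [hB]; exact Ring.mul_inverse_cancel _ (hAu z hz)
  -- the operators `K B`
  obtain ⟨G, hG⟩ : ∃ G : ℂ → H →L[ℂ] H, G = fun z => K z * B z := ⟨_, rfl⟩
  have hGd : DifferentiableOn ℂ G (ball 0 T) := by
    rw [hG]; exact hKd.mul hBd
  have hmul : ∀ z ∈ ball (0 : ℂ) T, (1 + K z) * B z = 1 + P * G z := by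
    intro z hz
    have h1 : 1 + K z = A z + P * K z := by rw [hA]; noncomm_ring
    rw [h1, add_mul, hAB z hz, hG, mul_assoc]
  -- an orthonormal basis
  obtain ⟨m, hm⟩ : ∃ m : ℕ, m = Module.finrank ℂ V := ⟨_, rfl⟩
  obtain ⟨b, -⟩ : ∃ b : OrthonormalBasis (Fin (Module.finrank ℂ V)) ℂ V, True :=
    ⟨stdOrthonormalBasis ℂ V, trivial⟩
  obtain ⟨e, he⟩ : ∃ e : Fin (Module.finrank ℂ V) → H, e = fun i => (b i : H) := ⟨_, rfl⟩
  have hPe : ∀ x : H, P x = ∑ i, inner ℂ (e i) x • e i := by
    intro x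
    have h1 : P x = ((V.orthogonalProjectionOnto x : V) : H) := by rw [hP]; rfl
    rw [h1]
    conv_lhs => rw [← b.sum_repr (V.orthogonalProjectionOnto x)]
    rw [Submodule.coe_sum]
    refine Finset.sum_congr rfl fun i _ => ?_
    rw [Submodule.coe_smul, b.repr_apply_apply, he]
    congr 1
    exact Submodule.inner_orthogonalProjectionOnto_eq_of_mem_left _ _
  obtain ⟨M, hM⟩ : ∃ M : ℂ → Matrix (Fin (Module.finrank ℂ V)) (Fin (Module.finrank ℂ V)) ℂ,
    M = fun z => Matrix.of fun i j => (if i = j then 1 else 0) + inner ℂ (e i) (G z (e j)) :=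
    ⟨_, rfl⟩
  have hMd : ∀ i j, DifferentiableOn ℂ (fun z => M z i j) (ball 0 T) := by
    intro i j
    rw [hM]
    simp only [Matrix.of_apply]
    refine (differentiableOn_const _).add ?_
    have h1 : DifferentiableOn ℂ (fun z => (innerSL ℂ (e i)) ((ContinuousLinearMap.apply ℂ H (e j))
        (G z))) (ball 0 T) :=
      (innerSL ℂ (e i)).differentiable.comp_differentiableOn
        ((ContinuousLinearMap.apply ℂ H (e j)).differentiable.comp_differentiableOn hGd)
    exact h1
  have hdet : ∀ (M' : ℂ → Matrix (Fin (Module.finrank ℂ V)) (Fin (Module.finrank ℂ V)) ℂ),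
      (∀ i j, DifferentiableOn ℂ (fun z => M' z i j) (ball 0 T)) →
      DifferentiableOn ℂ (fun z => (M' z).det) (ball 0 T) := by
    intro M' hM'
    simp only [Matrix.det_apply']
    refine DifferentiableOn.fun_sum fun σ _ => ?_
    refine DifferentiableOn.const_mul ?_ _
    exact DifferentiableOn.fun_finsetProd fun i _ => hM' _ _
  have hadj : ∀ i j, DifferentiableOn ℂ (fun z => (M z).adjugate i j) (ball 0 T) := by
    intro i j
    simp only [Matrix.adjugate_apply]
    refine hdet _ fun i' j' => ?_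
    simp only [Matrix.updateRow_apply]
    by_cases h : i' = j
    · simp only [if_pos h]; exact differentiableOn_const _
    · simp only [if_neg h]; exact hMd i' j'
  obtain ⟨E, hE⟩ : ∃ E : Fin (Module.finrank ℂ V) → Fin (Module.finrank ℂ V) → H →L[ℂ] H,
    E = fun i j => (innerSL ℂ (e j)).smulRight (e i) := ⟨_, rfl⟩
  have hEa : ∀ i j x, E i j x = inner ℂ (e j) x • e i := by
    intro i j x; rw [hE]; rfl
  refine ⟨fun z => (M z).det, fun z => B z * ((M z).det • 1 -
    (∑ i, ∑ j, (M z).adjugate i j • E i j) * G z), hdet M hMd, ?_, ?_, ?_⟩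
  · -- nonvanishing at `0`
    have h0T : (0 : ℂ) ∈ ball (0 : ℂ) T := mem_ball_self hT
    intro hd0
    obtain ⟨c, hc0, hcM⟩ := Matrix.exists_mulVec_eq_zero_iff.2 hd0
    apply hc0
    have hBu : IsUnit (B 0) := by
      rw [hB]; exact (hAu 0 h0T).ringInverse
    have hu : IsUnit (1 + P * G 0) := by
      rw [← hmul 0 h0T]; exact h0.mul hBu
    have h1 : (1 + P * G 0) (∑ j, c j • e j) = 0 := by
      have h2 : P (G 0 (∑ j, c j • e j)) = ∑ i, (∑ j, c j * inner ℂ (e i) (G 0 (e j))) • e i := by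
        rw [hPe]
        refine Finset.sum_congr rfl fun i _ => ?_
        congr 1
        rw [map_sum, inner_sum]
        refine Finset.sum_congr rfl fun j _ => ?_
        rw [map_smul, inner_smul_right]
      have h3 : (1 + P * G 0) (∑ j, c j • e j) = ∑ j, c j • e j + P (G 0 (∑ j, c j • e j)) := rfl
      rw [h3, h2, ← Finset.sum_add_distrib]
      refine Finset.sum_eq_zero fun i _ => ?_
      rw [← add_smul]
      have h4 : (M 0).mulVec c i = 0 := congrFun hcM i
      have h5 : (M 0).mulVec c i = c i + ∑ j, c j * inner ℂ (e i) (G 0 (e j)) := by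
        rw [hM]
        simp only [Matrix.mulVec, dotProduct, Matrix.of_apply, add_mul, Finset.sum_add_distrib]
        congr 1
        · simp
        · exact Finset.sum_congr rfl fun j _ => mul_comm _ _
      rw [← h5, h4, zero_smul]
    have h6 : (∑ j, c j • e j) = 0 := by
      obtain ⟨u, hu'⟩ := hu
      have h7 : ((u⁻¹ : (H →L[ℂ] H)ˣ) : H →L[ℂ] H) ((1 + P * G 0) (∑ j, c j • e j)) =
          ∑ j, c j • e j := by
        rw [← hu', ← ContinuousLinearMap.mul_apply, Units.inv_mul]
        rfl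
      rw [← h7, h1, map_zero]
    have h8 : (∑ j, c j • b j) = 0 := by
      apply Subtype.ext
      rw [Submodule.coe_sum]
      simpa [he] using h6
    funext i
    have h9 := b.orthonormal.inner_right_fintype c i
    rw [h8, inner_zero_right] at h9
    exact h9.symm
  · refine hBd.mul (((hdet M hMd).smul_const 1).sub (DifferentiableOn.mul ?_ hGd))
    exact DifferentiableOn.fun_sum fun i _ => DifferentiableOn.fun_sum fun j _ =>
      (hadj i j).smul_const _
  · intro z hz
    rw [← mul_assoc, hmul z hz]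
    ext x
    have hsum : ∀ y : H, (∑ i, ∑ j, (M z).adjugate i j • E i j) y =
        ∑ i, (∑ j, (M z).adjugate i j * inner ℂ (e j) y) • e i := by
      intro y
      simp only [sum_apply, smul_apply, hEa, smul_smul, Finset.sum_smul]
    obtain ⟨y, hy⟩ : ∃ y, y = G z x := ⟨_, rfl⟩
    obtain ⟨w, hw⟩ : ∃ w : H, w = ∑ i, (∑ j, (M z).adjugate i j * inner ℂ (e j) y) • e i :=
      ⟨_, rfl⟩
    have h1 : ((M z).det • 1 - (∑ i, ∑ j, (M z).adjugate i j • E i j) * G z) x =
        (M z).det • x - w := by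
      rw [hw, ← hsum, hy]; rfl
    have h2 : (1 + P * G z) ((M z).det • x - w) = (M z).det • x - w + P (G z ((M z).det • x - w)) :=
      rfl
    have h3 : ((1 + P * G z) * ((M z).det • 1 - (∑ i, ∑ j, (M z).adjugate i j • E i j) * G z)) x =
        (1 + P * G z) (((M z).det • 1 - (∑ i, ∑ j, (M z).adjugate i j • E i j) * G z) x) := rfl
    rw [h3, h1, h2]
    have h4 : P (G z ((M z).det • x - w)) = w := by
      rw [hPe, hw]
      refine Finset.sum_congr rfl fun i _ => ?_
      congr 1
      rw [map_sub, map_smul, ← hy, inner_sub_right, inner_smul_right, map_sum, inner_sum]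
      have h5 : ∀ l, inner ℂ (e i) (G z ((∑ j, (M z).adjugate l j * inner ℂ (e j) y) • e l)) =
          (M z i l - if i = l then 1 else 0) * ∑ j, (M z).adjugate l j * inner ℂ (e j) y := by
        intro l
        rw [map_smul, inner_smul_right, hM]
        simp only [Matrix.of_apply]
        ring
      rw [Finset.sum_congr rfl fun l _ => h5 l]
      simp only [sub_mul, Finset.sum_sub_distrib, ite_mul, one_mul, zero_mul, Finset.sum_ite_eq,
        Finset.mem_univ, if_true]
      have h6 : ∑ l, M z i l * ∑ j, (M z).adjugate l j * inner ℂ (e j) y =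
          (M z).det * inner ℂ (e i) y := by
        simp only [Finset.mul_sum]
        rw [Finset.sum_comm]
        have h7 : ∀ j, ∑ l, M z i l * ((M z).adjugate l j * inner ℂ (e j) y) =
            ((M z) * (M z).adjugate) i j * inner ℂ (e j) y := by
          intro j
          rw [Matrix.mul_apply, Finset.sum_mul]
          exact Finset.sum_congr rfl fun l _ => by ring
        rw [Finset.sum_congr rfl fun j _ => h7 j]
        simp only [Matrix.mul_adjugate, Matrix.smul_apply, Matrix.one_apply, smul_eq_mul, mul_ite,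
          mul_one, mul_zero, ite_mul, zero_mul, Finset.sum_ite_eq, Finset.mem_univ, if_true]
      rw [h6]
      ring
    rw [h4]
    simp

end

end Pool.Agent.Helper7.KF
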