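import Mathlib

/-! Invertibility of an affine family of operators near `t = 1`. -/

set_option autoImplicit false

open Set Filter Topology Metric

namespace Pool.Agent.Helper7.KF

theorem near_one {H : Type*} [NormedAddCommGroup H] [NormedSpace ℂ H] [CompleteSpace H] {k : ℕ}
    (B : Fin k → H →L[ℂ] H) :
    ∃ ε > 0, ε < 1 ∧ ∃ R : (Fin k → ℂ) → H →L[ℂ] H,
      DifferentiableOn ℂ R {t | ∀ j, ‖t j - 1‖ < ε} ∧ ∀ t : Fin k → ℂ, (∀ j, ‖t j - 1‖ < ε) →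
        (1 + ∑ j, (t j - 1) • B j) * R t = 1 ∧ R t * (1 + ∑ j, (t j - 1) • B j) = 1 ∧
          ‖R t‖ ≤ 2 := by
  obtain ⟨S, hS⟩ : ∃ S : (Fin k → ℂ) → H →L[ℂ] H, S = fun t => ∑ j, (t j - 1) • B j := ⟨_, rfl⟩
  obtain ⟨b, hb⟩ : ∃ b : ℝ, b = ∑ j, ‖B j‖ := ⟨_, rfl⟩
  have hb0 : 0 ≤ b := by rw [hb]; positivity
  obtain ⟨ε, hε⟩ : ∃ ε : ℝ, ε = 1 / (2 * (b + 1)) := ⟨_, rfl⟩
  have hε0 : 0 < ε := by rw [hε]; positivity
  have hε1 : ε < 1 := by
    rw [hε, div_lt_one (by positivity)]; linarith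
  have hεb : ε * b ≤ 1 / 2 := by
    rw [hε, div_mul_eq_mul_div, div_le_div_iff₀ (by positivity) (by norm_num)]
    linarith
  have hSn : ∀ t : Fin k → ℂ, (∀ j, ‖t j - 1‖ < ε) → ‖S t‖ ≤ 1 / 2 := by
    intro t ht
    rw [hS]
    refine (norm_sum_le _ _).trans (le_trans ?_ hεb)
    rw [hb, Finset.mul_sum]
    refine Finset.sum_le_sum fun j _ => ?_
    rw [norm_smul]
    exact mul_le_mul_of_nonneg_right (ht j).le (norm_nonneg _)
  have hu : ∀ t : Fin k → ℂ, (∀ j, ‖t j - 1‖ < ε) → IsUnit (1 + S t) := by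
    intro t ht
    have h1 : ‖-(S t)‖ < 1 := by rw [norm_neg]; exact (hSn t ht).trans_lt (by norm_num)
    have h2 := (Units.oneSub (-(S t)) h1).isUnit
    rwa [Units.val_oneSub, sub_neg_eq_add] at h2
  refine ⟨ε, hε0, hε1, fun t => Ring.inverse (1 + S t), ?_, ?_⟩
  · intro t ht
    have hd : DifferentiableAt ℂ (fun t => 1 + S t) t := by
      rw [hS]; fun_prop
    exact ((differentiableAt_inverse (hu t ht)).comp t hd).differentiableWithinAt
  · intro t ht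
    have e1 : (1 + ∑ j, (t j - 1) • B j) = 1 + S t := by rw [hS]
    rw [e1]
    have h1 := Ring.mul_inverse_cancel _ (hu t ht)
    refine ⟨h1, Ring.inverse_mul_cancel _ (hu t ht), ?_⟩
    refine ContinuousLinearMap.opNorm_le_bound _ (by norm_num) fun f => ?_
    obtain ⟨w, hw⟩ : ∃ w, w = Ring.inverse (1 + S t) f := ⟨_, rfl⟩
    have h2 : w + S t w = f := by
      have h3 : ((1 + S t) * Ring.inverse (1 + S t)) f = (1 + S t) (Ring.inverse (1 + S t) f) := rfl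
      rw [h1, ← hw] at h3
      have h4 : (1 + S t) w = w + S t w := rfl
      rw [← h4, ← h3]; rfl
    have h3 : ‖S t w‖ ≤ 1 / 2 * ‖w‖ := (S t).le_of_opNorm_le (hSn t ht) w
    rw [← hw]
    have h4 : ‖w‖ ≤ ‖f‖ + ‖S t w‖ := by
      have : w = f - S t w := by rw [← h2]; abel
      calc ‖w‖ = ‖f - S t w‖ := by rw [← this]
        _ ≤ ‖f‖ + ‖S t w‖ := norm_sub_le _ _
    linarith

end Pool.Agent.Helper7.KF
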