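import Mathlib

/-! Invertibility of a holomorphic family of operators near `t = 1`. -/

set_option autoImplicit false

open Set Filter Topology Metric

namespace Pool.Agent.Helper7.KF

theorem near_inv {H : Type*} [NormedAddCommGroup H] [NormedSpace ℂ H] [CompleteSpace H] {k : ℕ}
    {Tau : (Fin k → ℂ) → H →L[ℂ] H} (hT : Differentiable ℂ Tau) (h1 : Tau (fun _ => 1) = 1) :
    ∃ ε > 0, ε < 1 ∧ ∃ R : (Fin k → ℂ) → H →L[ℂ] H,
      DifferentiableOn ℂ R {t | ∀ j, ‖t j - 1‖ < ε} ∧ ∀ t : Fin k → ℂ, (∀ j, ‖t j - 1‖ < ε) →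
        Tau t * R t = 1 ∧ R t * Tau t = 1 ∧ ‖R t‖ ≤ 2 := by
  obtain ⟨ε₀, hε₀, h2⟩ : ∃ ε₀ > 0, ∀ t : Fin k → ℂ, dist t (fun _ => 1) < ε₀ →
      ‖Tau t - 1‖ < 1 / 2 := by
    have h3 := (hT.continuous.tendsto (fun _ => (1 : ℂ)))
    rw [Metric.tendsto_nhds_nhds] at h3
    obtain ⟨ε₀, hε₀, h4⟩ := h3 (1 / 2) (by norm_num)
    refine ⟨ε₀, hε₀, fun t ht => ?_⟩
    have h5 := h4 ht
    rwa [h1, dist_eq_norm] at h5
  have hε1 : min ε₀ 1 / 2 < 1 := by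
    have : min ε₀ 1 ≤ 1 := min_le_right _ _
    linarith
  have hε0 : 0 < min ε₀ 1 / 2 := by positivity
  have hSn : ∀ t : Fin k → ℂ, (∀ j, ‖t j - 1‖ < min ε₀ 1 / 2) → ‖Tau t - 1‖ ≤ 1 / 2 := by
    intro t ht
    refine (h2 t ?_).le
    have h3 : dist t (fun _ => 1) ≤ min ε₀ 1 / 2 :=
      (dist_pi_le_iff hε0.le).2 fun j => by rw [dist_eq_norm]; exact (ht j).le
    have h4 : min ε₀ 1 ≤ ε₀ := min_le_left _ _
    have h5 : 0 < min ε₀ 1 := by positivity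
    linarith
  have hu : ∀ t : Fin k → ℂ, (∀ j, ‖t j - 1‖ < min ε₀ 1 / 2) → IsUnit (Tau t) := by
    intro t ht
    have h3 : ‖1 - Tau t‖ < 1 := by
      rw [norm_sub_rev]; exact (hSn t ht).trans_lt (by norm_num)
    have h4 := (Units.oneSub (1 - Tau t) h3).isUnit
    rwa [Units.val_oneSub, sub_sub_cancel] at h4
  refine ⟨min ε₀ 1 / 2, hε0, hε1, fun t => Ring.inverse (Tau t), ?_, ?_⟩
  · intro t ht
    exact ((differentiableAt_inverse (hu t ht)).comp t (hT t)).differentiableWithinAt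
  · intro t ht
    have h3 := Ring.mul_inverse_cancel _ (hu t ht)
    refine ⟨h3, Ring.inverse_mul_cancel _ (hu t ht), ?_⟩
    refine ContinuousLinearMap.opNorm_le_bound _ (by norm_num) fun f => ?_
    obtain ⟨w, hw⟩ : ∃ w, w = Ring.inverse (Tau t) f := ⟨_, rfl⟩
    have h4 : Tau t w = f := by
      have h5 : (Tau t * Ring.inverse (Tau t)) f = Tau t (Ring.inverse (Tau t) f) := rfl
      rw [h3, ← hw] at h5
      rw [← h5]; rfl
    have h5 : ‖(Tau t - 1) w‖ ≤ 1 / 2 * ‖w‖ := (Tau t - 1).le_of_opNorm_le (hSn t ht) w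
    have h6 : (Tau t - 1) w = Tau t w - w := rfl
    rw [h6, h4] at h5
    rw [← hw]
    have h7 : ‖w‖ ≤ ‖f‖ + ‖f - w‖ := by
      calc ‖w‖ = ‖f - (f - w)‖ := by congr 1; abel
        _ ≤ ‖f‖ + ‖f - w‖ := norm_sub_le _ _
    linarith

end Pool.Agent.Helper7.KF
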